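import Pool.Agent.Helper81.CPY.Zmc
import Pool.Agent.Helper18.SRT.Mx
import Pool.Agent.Helper26.BXD.Use
import Pool.Agent.Helper7.RD.Br
import Pool.Agent.Helper29.MX.Bas

/-! NUMBERS OF ALL PREFIXES ON ALL EVENTS from one literal label with a frame and a stable zoom. -/

set_option autoImplicit false

namespace Pool.Agent.Helper19.DGY

open Finset Filter Topology Matrix Pool.Agent.Helper69.RK Pool.Agent.Helper31.EC Pool.Agent.Helper31.EC.Sp
open Pool.Agent.Helper40.EL Pool.Agent.Helper89.LX Pool.Agent.Helper3.LF Pool.Agent.Helper84.MT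
open Pool.Agent.Helper36.AM Pool.Agent.Helper29.MX Pool.Agent.Helper81.CPY
open Pool.Agent.Helper87.NSL (cndR)
open Pool.Agent.Helper18.PRM (vcrd scrd gz_crd cpo rename_cpo coeff_cpo vars_cpo sum_mapDomain eval_cpo)
open Pool.Agent.Helper18.SRT (cpo_deg codO_part volP_part volP_le volP_all)
open Pool.Agent.Helper26.BXD (NG box_vol gz_ng kz_ovl)
open Pool.Agent.Helper7.RD (FD0 volC volCO volC_eq volCO_le)

noncomputable section

variable {S T : Sp} {M : ℕ} {E E' : ℕ → ℕ} {ι : Type}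

/-! ### zooms on events -/

/-- A ZOOM OVER A LITERAL LABEL ON AN EVENT OF AN EXTENSION IS A ZOOM (no leaf relation) -/
theorem gz_im {s : MSys S M E ι} {Z : ∀ k, Setoid (S.F k).Ω} {La : Fin M → ℝ} (f : Frm s.Q (Lab.ofZ Z) La)
    (c e : ℝ) (he : 0 < e) {t : MSys ((Lab.ofZ Z).ovr e he) M E' ι} (ht : Gz s (Lab.ofZ Z) c e he f.X t)
    (p : Pj T S) (A : ∀ k, (T.F k).Ω → Prop) (hA : 0 < ul (T.pr A)) :
    Gz (s.im p A hA) (Lab.ofZ (S := Sp.im p A) Z) c e he (frmI p A f).X (zim p A hA t) := by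
  refine ⟨?_, ?_⟩
  · obtain ⟨K, hK, h⟩ := ht.pt
    refine ⟨K, hK, ?_⟩
    filter_upwards [h] with k hk ω hω
    exact hk ω (FSp.im_supp (p.fp k) (A k) ω hω)
  · intro b i h0 h1
    have h2 := ht.win b i h0 h1
    rw [up_chP, win_chP] at h2
    have e1 : ((s.im p A hA).lf i).win (c + e * b) = ((s.lf i).win (c + e * b)).im p A := rfl
    rw [e1, up_chP, zim_win]
    exact ⟨chP_im p A hA h2.1, chP_im p A hA h2.2⟩

/-- literal partitions on events -/
theorem ple_ofZ_im {Z : ∀ k, Setoid (S.F k).Ω} {B : Part S} (h : PLe (fun k => fc (Z k)) B) (p : Pj T S)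
    (A : ∀ k, (T.F k).Ω → Prop) (hA : 0 < ul (T.pr A)) :
    PLe (fun k => fc (F := (Sp.im p A).F k) (Z k)) (B.im p A) := by
  have e1 : (Part.im p A fun k => fc (Z k)) = fun k => fc (F := (Sp.im p A).F k) (Z k) := rfl
  rw [← e1]
  exact ple_im p A hA h

/-- literal type-labels on events -/
theorem tlb_im {s : MSys S M E ι} {Z : ∀ k, Setoid (S.F k).Ω} {c : ℝ} (h : TLb s c (Lab.ofZ Z)) (p : Pj T S)
    (A : ∀ k, (T.F k).Ω → Prop) (hA : 0 < ul (T.pr A)) : TLb (s.im p A hA) c (Lab.ofZ (S := Sp.im p A) Z) := by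
  intro i
  have h1 : PLe (fun k => fc (Z k)) ((s.lf i).win c) := by
    have h2 := h i
    simp only [Lab.ofZ_leak] at h2
    exact h2
  have h3 : PLe (fun k => fc (F := (Sp.im p A).F k) (Z k)) (((s.im p A hA).lf i).win c) := ple_ofZ_im h1 p A hA
  simp only [Lab.ofZ_leak]
  exact h3

/-! ### frames of prefixes -/

section pfr

variable {Q : S.VV M} {l : Lab S} {La : Fin M → ℝ}

theorem vars_rng (f : Frm Q l La) {j : ℕ} (hj : j ≤ M) (k : ℕ) (ω : (l.sp.F k).Ω) (i : Fin j) :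
    ∀ a ∈ (f.P k ω (Fin.castLE hj i)).vars, ∃ b, Fin.castLE hj b = a := fun a ha => by
  have h := f.tri k ω (Fin.castLE hj i) a ha
  exact ⟨⟨a, lt_trans h i.2⟩, rfl⟩

/-- THE FRAME OF A PREFIX -/
def pfr {j : ℕ} (hj : j ≤ M) (f : Frm Q l La) : Frm (vcrd (Fin.castLE hj) Q) l (fun i => La (Fin.castLE hj i)) where
  X := vcrd (Fin.castLE hj) f.X
  P := fun k ω i => cpo (Fin.castLE hj) (Fin.castLE_injective hj) (f.P k ω (Fin.castLE hj i))
  tri := by
    intro k ω i a ha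
    have h1 := vars_cpo _ (Fin.castLE_injective hj) (vars_rng f hj k ω i) ha
    exact f.tri k ω (Fin.castLE hj i) _ h1
  red := by
    intro k ω i a ha hne
    rw [← sum_mapDomain _ (Fin.castLE_injective hj) La a]
    apply f.red k ω (Fin.castLE hj i)
    · rw [MvPolynomial.mem_support_iff, ← coeff_cpo _ (Fin.castLE_injective hj) (vars_rng f hj k ω i)]
      exact MvPolynomial.mem_support_iff.mp ha
    · intro hc
      apply hne
      apply Finsupp.mapDomain_injective (Fin.castLE_injective hj)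
      rw [hc, Finsupp.mapDomain_zero]
  fn := by
    filter_upwards [f.fn] with k hk ω ω' a b c d
    funext j
    rw [hk ω ω' a b c d]
  bd := by
    obtain ⟨K, hK, hb⟩ := f.bd
    refine ⟨K, hK, ?_⟩
    filter_upwards [hb] with k hk ω hω i a
    rw [coeff_cpo _ (Fin.castLE_injective hj) (vars_rng f hj k ω i)]
    exact hk ω hω (Fin.castLE hj i) _
  pt := by
    obtain ⟨K, hK, hb⟩ := f.pt
    refine ⟨K, hK, ?_⟩
    filter_upwards [hb] with k hk ω hω i
    have h1 := eval_cpo _ (Fin.castLE_injective hj) (vars_rng f hj k ω i) (fun i => S.dl (La i) k * f.X.v k ω i)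
    have h2 := hk ω hω (Fin.castLE hj i)
    rw [← h1] at h2
    exact h2

theorem pfr_deg (f : Frm Q l La) {κ : ℕ} (hκ : ∀ k ω i, (f.P k ω i).totalDegree ≤ κ) {j : ℕ} (hj : j ≤ M) :
    ∀ k ω i, ((pfr hj f).P k ω i).totalDegree ≤ κ := fun k ω i =>
  (cpo_deg (Fin.castLE_injective hj) (vars_rng f hj k ω i)).trans (hκ k ω (Fin.castLE hj i))

end pfr

/-! ### numbers of prefixes from a stable zoom, one event -/

section one

variable {s : MSys S M E ι} {l : Lab S} {La : Fin M → ℝ} {c e : ℝ} {he : 0 < e} (f : Frm s.Q l La)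

theorem volP_crd (s : MSys S M E ι) (R : Rsl S) (c : ℝ) {j : ℕ} (hj : j ≤ M) :
    volP s R c hj = volKO (scrd (Fin.castLE hj) s) R c := by
  rw [volKO_eq]
  rfl

/-- the upper bound: the label and any zoom -/
theorem volP_up [Finite ι] (hc : 0 ≤ c) (h1 : c + e ≤ 1) (h0 : ∀ i, 0 ≤ La i) (hLe : ∀ i, La i + e ≤ 1) {κ : ℕ}
    (hκ : ∀ k ω i, (f.P k ω i).totalDegree ≤ κ) (hl : TLb s c l) {t : MSys (l.ovr e he) M E' ι}
    (ht : Gz s l c e he f.X t) {j : ℕ} (hj : j ≤ M) :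
    volP s (rbot S) c hj ≤ j - ∑ i : Fin j, La (Fin.castLE hj i) := by
  rw [volP_crd]
  have h2 := Pool.Agent.Helper7.RD.gz_volKO (s := scrd (Fin.castLE hj) s) (R := rbot S)
    ⟨pfr hj f, c, e, hc, he, h1, fun i => h0 _, fun i => hLe _, κ, pfr_deg f hκ hj⟩
    (t := scrd (Fin.castLE hj) t) (gz_crd ht (Fin.castLE hj)) ((tlb_iff _ _ _).mpr hl) (b := 0) le_rfl zero_le_one
  rw [mul_zero, add_zero] at h2
  have h3 : volKO (scrd (Fin.castLE hj) t) (rover l e he (rbot S)) 0 ≤ j := Pool.Agent.Helper29.MX.volKO_le_M _ _ _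
  have h4 : 0 ≤ e * (j - volKO (scrd (Fin.castLE hj) t) (rover l e he (rbot S)) 0) :=
    mul_nonneg he.le (sub_nonneg.mpr h3)
  linarith

/-- no gain over type-labels, windows only -/
theorem ng_win [Finite ι] {t : MSys S M E ι} {b : ℝ} {m : ℕ} (σ : Fin m → Fin M)
    (h : (m : ℝ) ≤ volCO (KZ (rbot S)) (cndR t (rbot S) b) (vcrd σ t.Q)) :
    NG (KZ (rbot S)) (vcrd σ t.Q) (fun i => (t.lf i).win b) := by
  intro D y hy
  exact NG.of_volCO h D y ((kad_bot (s := scrd σ t)).mpr hy.1)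

/-- the lower bound: a stable zoom -/
theorem volP_dn [Finite ι] (h0 : ∀ i, 0 ≤ La i) {κ : ℕ} (hκ : ∀ k ω i, (f.P k ω i).totalDegree ≤ κ)
    {t : MSys (l.ovr e he) M E' ι} (ht : Gz s l c e he f.X t) (hst : (M : ℝ) ≤ volKO t (rbot _) 0) {j : ℕ} (hj : j ≤ M) :
    (j : ℝ) - ∑ i : Fin j, La (Fin.castLE hj i) ≤ volP s (rbot S) c hj := by
  have e1 : (j : ℝ) ≤ volCO (KZ (rbot _)) (cndR t (rbot _) 0) (vcrd (Fin.castLE hj) t.Q) := by
    have h1 := codO_part (C := KZ (rbot _)) (A := cndR t (rbot _) 0) (Q := t.Q) (Fin.castLE hj)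
      (Fin.castLE_injective hj)
    rw [volKO_eq] at hst
    linarith
  have e3 := gz_ng (f := pfr hj f) (s := scrd (Fin.castLE hj) s) (t := scrd (Fin.castLE hj) t)
    (gz_crd ht (Fin.castLE hj)) (ng_win _ e1)
  rw [volP_crd, volKO_eq]
  refine le_ciInf fun D => ?_
  obtain ⟨x, hx⟩ := (gaq (scrd (Fin.castLE hj) s).Q D).exists_optfK (KZ (rbot S))
    (cndR (scrd (Fin.castLE hj) s) (rbot S) c)
  rw [volC_eq hx]
  have hx1 : (gaq (scrd (Fin.castLE hj) s).Q D).Adf (fun i => (s.lf i).win c) x :=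
    (kad_bot (s := scrd (Fin.castLE hj) s)).mp hx.1
  refine box_vol (pfr hj f) (pfr_deg f hκ hj) (fun i => h0 _) (fun i' => ⟨i', ?_⟩) hx1 (kz_bot _) e3
  have h2 := ht.win 0 i' le_rfl zero_le_one
  rw [mul_zero, add_zero] at h2
  exact h2.2

/-- NUMBERS OF ALL PREFIXES from a label with a frame and a stable zoom -/
theorem volP_of [Finite ι] (hc : 0 ≤ c) (h1 : c + e ≤ 1) (h0 : ∀ i, 0 ≤ La i) (hLe : ∀ i, La i + e ≤ 1) {κ : ℕ}
    (hκ : ∀ k ω i, (f.P k ω i).totalDegree ≤ κ) (hl : TLb s c l) {t : MSys (l.ovr e he) M E' ι}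
    (ht : Gz s l c e he f.X t) (hst : (M : ℝ) ≤ volKO t (rbot _) 0) {j : ℕ} (hj : j ≤ M) :
    volP s (rbot S) c hj = j - ∑ i : Fin j, La (Fin.castLE hj i) :=
  le_antisymm (volP_up f hc h1 h0 hLe hκ hl ht hj) (volP_dn f h0 hκ ht hst hj)

end one

/-! ### all events -/

section aen

variable {s : MSys S M E ι} {X : Rsl S} {La : Fin M → ℝ} {c e : ℝ} {he : 0 < e} (f : Frm s.Q (Lab.ofZ X) La)
  {z : MSys ((Lab.ofZ X).ovr e he) M E' ι}

/-- the zoom on events of extensions is stable -/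
theorem zim_stb (hst : Stb 0 z (rbot _)) (p : Pj T S) (A : ∀ k, (T.F k).Ω → Prop) (hA : 0 < ul (T.pr A)) :
    (M : ℝ) ≤ volKO (zim p A hA z) (rbot _) 0 := by
  have h := hst _ (pjb p X e he) A hA
  rw [sub_zero] at h
  exact h

/-- **NUMBERS OF ALL PREFIXES ON ALL EVENTS** from one literal label with a frame and a stable zoom -/
theorem aen [Finite ι] (hc : 0 ≤ c) (h1 : c + e ≤ 1) (h0 : ∀ i, 0 ≤ La i) (hLe : ∀ i, La i + e ≤ 1) {κ : ℕ}
    (hκ : ∀ k ω i, (f.P k ω i).totalDegree ≤ κ) (hl : TLb s c (Lab.ofZ X)) (hz : Gz s (Lab.ofZ X) c e he f.X z)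
    (hst : Stb 0 z (rbot _)) (p : Pj T S) (A : ∀ k, (T.F k).Ω → Prop) (hA : 0 < ul (T.pr A)) {j : ℕ} (hj : j ≤ M) :
    volP (s.im p A hA) (rbot _) c hj = j - ∑ i : Fin j, La (Fin.castLE hj i) := by
  have a1 : TLb (s.im p A hA) c (Lab.ofZ (S := Sp.im p A) X) := tlb_im hl p A hA
  have a2 : Gz (s.im p A hA) (Lab.ofZ (S := Sp.im p A) X) c e he (frmI p A f).X (zim p A hA z) :=
    gz_im f c e he hz p A hA
  have a3 : (M : ℝ) ≤ volKO (zim p A hA z) (rbot _) 0 := zim_stb hst p A hA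
  have a4 : ∀ k ω i, ((frmI p A f).P k ω i).totalDegree ≤ κ := fun k ω i => hκ k ω i
  exact volP_of (s := s.im p A hA) (l := Lab.ofZ (S := Sp.im p A) X) (he := he) (t := zim p A hA z) (frmI p A f) hc h1
    h0 hLe a4 a1 a2 a3 hj

end aen

end

end Pool.Agent.Helper19.DGY
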